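import Pool.Agent.H30.AF.Ind
import Pool.Agent.H88.AF.C4Defs

/-!
helper30 (project MP_28250c_AF, C4): the induction over the minors and the output of C4.
-/

set_option autoImplicit false

namespace ACpFrege

/-- The smaller root of `f (z - f) = n`. -/
noncomputable def fr (z n : ℝ) : ℝ := (z - Real.sqrt (z ^ 2 - 4 * n)) / 2

section real

variable {z : ℝ}

theorem fr_mul {n : ℝ} (h : 4 * n ≤ z ^ 2) : fr z n * (z - fr z n) = n := by
  unfold fr
  have h1 := Real.sq_sqrt (show 0 ≤ z ^ 2 - 4 * n by linarith)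
  nlinarith

theorem fr_zero (hz : 0 ≤ z) : fr z 0 = 0 := by
  unfold fr
  rw [mul_zero, sub_zero, Real.sqrt_sq hz, sub_self, zero_div]

theorem fr_mono {m n : ℝ} (h : m ≤ n) : fr z m ≤ fr z n := by
  unfold fr
  have := Real.sqrt_le_sqrt (show z ^ 2 - 4 * n ≤ z ^ 2 - 4 * m by linarith)
  linarith

theorem fr_le (n : ℝ) : fr z n ≤ z / 2 := by
  unfold fr
  have := Real.sqrt_nonneg (z ^ 2 - 4 * n)
  linarith

theorem fr_nonneg (hz : 0 ≤ z) {n : ℝ} (hn : 0 ≤ n) : 0 ≤ fr z n := by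
  rw [← fr_zero hz]
  exact fr_mono hn

theorem fr_sub {n : ℝ} (h : 4 * n + 1 ≤ z ^ 2) : fr z n - fr z (n - 1) ≤ 1 := by
  unfold fr
  set a := Real.sqrt (z ^ 2 - 4 * n) with ha
  set c := Real.sqrt (z ^ 2 - 4 * (n - 1)) with hc
  have h1 : a ^ 2 = z ^ 2 - 4 * n := Real.sq_sqrt (by linarith)
  have h2 : c ^ 2 = z ^ 2 - 4 * (n - 1) := Real.sq_sqrt (by linarith)
  have h3 : 1 ≤ a := by
    rw [ha]
    exact Real.one_le_sqrt.2 (by linarith)
  have h4 : 0 ≤ c := Real.sqrt_nonneg _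
  have h5 : c ≤ a + 2 := by nlinarith
  linarith

/-- The numerical step. -/
theorem num_step {M κ ρ k1 k' n : ℝ} (hz0 : 0 < z) (hz : 4 * M + 1 ≤ z ^ 2) (hκ0 : 0 ≤ κ) (hκ1 : κ ≤ 1)
    (hκ : fr z M ≤ (1 - κ) * (z - fr z M)) (hρ0 : 0 ≤ ρ) (hρ : 2 * ρ * Real.sqrt M ≤ 1) (hk1 : 0 ≤ k1)
    (hk : 3 + k1 ≤ k' * κ) (hk' : 0 ≤ k') (hn : 1 ≤ n) (hnM : n ≤ M) :
    fr z n - k' ≤ n * (2 * (1 - ρ) / (z - fr z (n - 1)) -
      (z + 1 + k1 - (fr z (n - 1) - k')) / (z - fr z (n - 1)) ^ 2) := by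
  set f := fr z n with hf
  set f0 := fr z (n - 1) with hf0
  set B := z - f0 with hB
  have e1 : f * (z - f) = n := fr_mul (by linarith)
  have e2 : f0 ≤ f := fr_mono (by linarith)
  have e3 : 0 ≤ f0 := fr_nonneg hz0.le (by linarith)
  have e4 : f ≤ z / 2 := fr_le n
  have e5 : f - f0 ≤ 1 := fr_sub (by linarith)
  have hBpos : 0 < B := by
    rw [hB]
    linarith
  have hzf : 0 < z - f := by linarith
  have hfpos : 0 < f := by
    rcases (e3.trans e2).lt_or_eq with h | h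
    · exact h
    · rw [← h] at e1
      linarith
  have e6 : f ≤ (1 - κ) * (z - f) := by
    have h1 : f ≤ fr z M := fr_mono hnM
    nlinarith
  have e7 : n ≤ (1 - κ) * B ^ 2 := by
    have h1 : n ≤ (1 - κ) * (z - f) ^ 2 := by
      rw [← e1]
      nlinarith
    have h2 : (z - f) ^ 2 ≤ B ^ 2 := pow_le_pow_left₀ hzf.le (by linarith) 2
    nlinarith
  have e8 : n / B ^ 2 ≤ 1 - κ := by
    rw [div_le_iff₀ (by positivity)]
    exact e7
  have e9 : f - 1 ≤ n / B := by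
    rw [le_div_iff₀ hBpos, ← e1, hB]
    nlinarith
  have e10 : n / B ≤ Real.sqrt M := by
    have h1 : n / B ≤ f := by
      rw [div_le_iff₀ hBpos, ← e1]
      nlinarith
    refine h1.trans (Real.le_sqrt_of_sq_le ?_)
    nlinarith
  have e11 : 2 * ρ * (n / B) ≤ 1 := (mul_le_mul_of_nonneg_left e10 (by positivity)).trans hρ
  have e12 : n * (2 * (1 - ρ) / B - (z + 1 + k1 - (f0 - k')) / B ^ 2) =
      n / B - 2 * ρ * (n / B) - (n / B ^ 2) * (1 + k1 + k') := by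
    have : z + 1 + k1 - (f0 - k') = B + (1 + k1 + k') := by
      rw [hB]
      ring
    rw [this]
    field_simp
    ring
  rw [e12]
  have e13 : (n / B ^ 2) * (1 + k1 + k') ≤ (1 - κ) * (1 + k1 + k') := mul_le_mul_of_nonneg_right e8 (by positivity)
  nlinarith

end real

variable {b M q : ℕ}

/-- The induction over the minors. -/
theorem mS_ge [NeZero q] (hq : 2 ≤ q) (hb : 0 < b) {t z ρ κ k1 k' : ℝ} (ht : 0 ≤ t) (htz : t < z)
    (hρ : av (fun o : Om b M q => 1 - ind t (HH o)) ≤ ρ)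
    (hz : 4 * (M : ℝ) + 1 ≤ z ^ 2) (hκ0 : 0 ≤ κ) (hκ1 : κ ≤ 1)
    (hκ : fr z M ≤ (1 - κ) * (z - fr z M)) (hρ2 : 2 * ρ * Real.sqrt M ≤ 1)
    (hk1 : Real.sqrt ρ * (Real.sqrt 2 * M) / (z - t) ≤ k1)
    (hk : 3 + k1 ≤ k' * κ) (hk' : 0 ≤ k') (n : ℕ) (hn : n ≤ M) (S : Finset (Fin M)) (hS : S.card = n) :
    fr z n - k' ≤ mS b q t z S := by
  have hz0 : 0 < z := lt_of_le_of_lt ht htz
  have hρ0 : 0 ≤ ρ := le_trans (av_nonneg fun o => by linarith [ind_le_one t (HH (b := b) (q := q) o)]) hρ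
  have hk10 : 0 ≤ k1 := le_trans (by have : 0 < z - t := by linarith
                                     positivity) hk1
  induction n generalizing S with
  | zero =>
    have h1 : S = ∅ := Finset.card_eq_zero.1 hS
    subst h1
    unfold mS
    simp only [Finset.sum_empty, mul_zero]
    rw [Nat.cast_zero, fr_zero hz0.le]
    simp [av]
    exact hk'
  | succ m ih =>
    have h1 : mS b q t z S = ∑ u ∈ S, av (fun o : Om b M q => ind t (HH o) * qr (zr Sᶜ (HH o)) z (Pi.single u 1)) := by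
      unfold mS
      rw [← av_sum]
      refine av_congr fun o => ?_
      rw [Finset.mul_sum]
    rw [h1]
    have hB : 0 < z - fr z m := by
      have := fr_le (z := z) m
      linarith
    have h2 : ∀ u ∈ S, 2 * (1 - ρ) / (z - fr z m) - (z + 1 + k1 - (fr z m - k')) / (z - fr z m) ^ 2 ≤
        av (fun o : Om b M q => ind t (HH o) * qr (zr Sᶜ (HH o)) z (Pi.single u 1)) := by
      intro u hu
      refine le_trans ?_ (step_av hq hb ht htz hρ hu hB)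
      have h3 := ih (by omega) (S.erase u) (by rw [Finset.card_erase_of_mem hu, hS]; rfl)
      have h4 : (z + 1 + Real.sqrt ρ * (Real.sqrt 2 * M) / (z - t) - mS b q t z (S.erase u)) / (z - fr z m) ^ 2 ≤
          (z + 1 + k1 - (fr z m - k')) / (z - fr z m) ^ 2 :=
        div_le_div_of_nonneg_right (by linarith) (by positivity)
      linarith
    refine le_trans ?_ (Finset.sum_le_sum h2)
    rw [Finset.sum_const, hS, nsmul_eq_mul]
    have h5 := num_step (M := (M : ℝ)) (n := ((m + 1 : ℕ) : ℝ)) hz0 hz hκ0 hκ1 hκ hρ0 hρ2 hk10 hk hk' (by push_cast; linarith [Nat.cast_nonneg (α := ℝ) m])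
      (by exact_mod_cast hn)
    have h6 : ((m + 1 : ℕ) : ℝ) - 1 = m := by push_cast; ring
    rw [h6] at h5
    exact h5

/-- Chebyshev: the probability that the largest eigenvalue is larger than `2 √M + s`. -/
theorem cheb (h2 : OutC2) {q : ℕ} (hq : 3 ≤ q) [NeZero q] (hM : 1 ≤ M) (hb : 1 ≤ b) {a s : ℝ}
    (ha : av (fun o : Om b M q => lam (HH o) 0) ≤ a) (hs : 0 < s) :
    pr (fun o : Om b M q => a + s < lam (HH o) 0) ≤ 3 / s ^ 2 := by
  have h3 := h2 M q b hM hq hb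
  set m := av (fun o : Om b M q => lam (HH o) 0) with hm
  refine (pr_mono (B := fun o : Om b M q => s ^ 2 ≤ (lam (HH o) 0 - m) ^ 2) fun o ho => ?_).trans ?_
  · exact pow_le_pow_left₀ hs.le (by linarith) 2
  · refine (markov (fun o => by positivity) (by positivity)).trans ?_
    exact div_le_div_of_nonneg_right h3 (by positivity)

/-- Sizes of powers. -/
theorem pow_sizes {r : ℝ} (hr0 : 0 ≤ r) (h : (1048576 : ℝ) ≤ r ^ 400) : 1 < r ∧ 2 ≤ r ^ 20 ∧ 4 ≤ r ^ 40 ∧ 16 ≤ r ^ 80 := by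
  have key5 : ∀ x : ℝ, 0 ≤ x → (1048576 : ℝ) ≤ x ^ 5 → 16 ≤ x := by
    intro x hx h1
    by_contra hlt
    rw [not_le] at hlt
    have h2 : x ^ 5 < 16 ^ 5 := pow_lt_pow_left₀ hlt hx (by norm_num)
    norm_num at h2
    linarith
  have key2 : ∀ x y : ℝ, 0 ≤ x → 0 ≤ y → y ^ 2 ≤ x ^ 2 → y ≤ x := fun x y hx hy h1 => le_of_sq_le_sq h1 hx
  have h80 : 16 ≤ r ^ 80 := by
    refine key5 _ (pow_nonneg hr0 80) (h.trans (le_of_eq ?_))
    rw [← pow_mul]
  have h40 : 4 ≤ r ^ 40 := by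
    refine key2 _ _ (pow_nonneg hr0 40) (by norm_num) ?_
    rw [← pow_mul]
    norm_num
    exact h80
  have h20 : 2 ≤ r ^ 20 := by
    refine key2 _ _ (pow_nonneg hr0 20) (by norm_num) ?_
    rw [← pow_mul]
    norm_num
    exact h40
  refine ⟨?_, h20, h40, h80⟩
  by_contra hle
  rw [not_lt] at hle
  have := pow_le_one₀ (n := 20) hr0 hle
  linarith

/-- The facts about `fr`. -/
theorem fr_facts {r : ℝ} (hr1 : 1 < r) (h20 : 2 ≤ r ^ 20) (h40 : 4 ≤ r ^ 40) :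
    fr (2 * r ^ 200 + 2 * r ^ 160) (r ^ 400) ≤
      (1 - 1 / r ^ 20) * (2 * r ^ 200 + 2 * r ^ 160 - fr (2 * r ^ 200 + 2 * r ^ 160) (r ^ 400)) ∧
    r ^ 200 + r ^ 160 - 1.5 * r ^ 180 ≤ fr (2 * r ^ 200 + 2 * r ^ 160) (r ^ 400) := by
  have hrpos : 0 < r := by linarith
  have hz2 : (2 * r ^ 200 + 2 * r ^ 160) ^ 2 - 4 * r ^ 400 = 8 * r ^ 360 + 4 * r ^ 320 := by ring
  have hfr : fr (2 * r ^ 200 + 2 * r ^ 160) (r ^ 400) = r ^ 200 + r ^ 160 - Real.sqrt (8 * r ^ 360 + 4 * r ^ 320) / 2 := by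
    unfold fr
    rw [hz2]
    ring
  have e360 : r ^ 360 = (r ^ 180) ^ 2 := by rw [← pow_mul]
  have e320 : 4 * r ^ 320 ≤ (r ^ 180) ^ 2 := by
    have e : (r ^ 180) ^ 2 = r ^ 320 * r ^ 40 := by rw [← pow_mul, ← pow_add]
    rw [e]
    have : 0 < r ^ 320 := pow_pos hrpos 320
    nlinarith
  have p320 : 0 < r ^ 320 := pow_pos hrpos 320
  have p180 : 0 < r ^ 180 := pow_pos hrpos 180
  have e200 : r ^ 200 * (1 / r ^ 20) = r ^ 180 := by
    rw [mul_one_div, div_eq_iff (pow_pos hrpos 20).ne', ← pow_add]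
  have e160 : r ^ 160 * (1 / r ^ 20) = r ^ 140 := by
    rw [mul_one_div, div_eq_iff (pow_pos hrpos 20).ne', ← pow_add]
  have h140 : 4 * r ^ 140 ≤ r ^ 180 := by
    have e : r ^ 180 = r ^ 140 * r ^ 40 := by rw [← pow_add]
    rw [e]
    have : 0 < r ^ 140 := pow_pos hrpos 140
    nlinarith
  rw [e360] at hfr
  generalize r ^ 180 = x at *
  generalize r ^ 320 = y at *
  have hs1 : 2.8 * x ≤ Real.sqrt (8 * x ^ 2 + 4 * y) := by
    refine Real.le_sqrt_of_sq_le ?_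
    nlinarith
  have hs2 : Real.sqrt (8 * x ^ 2 + 4 * y) ≤ 3 * x := by
    refine Real.sqrt_le_iff.2 ⟨by linarith, ?_⟩
    nlinarith
  have hinv20 : 1 / r ^ 20 ≤ 1 / 2 := by
    rw [div_le_div_iff₀ (pow_pos hrpos 20) (by norm_num)]
    linarith
  have hinv0 : 0 < 1 / r ^ 20 := by
    have := pow_pos hrpos 20
    positivity
  rw [hfr]
  refine ⟨?_, by linarith⟩
  generalize Real.sqrt (8 * x ^ 2 + 4 * y) = s at *
  generalize 1 / r ^ 20 = k at *
  generalize r ^ 200 = A at *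
  generalize r ^ 160 = B at *
  generalize r ^ 140 = C at *
  have h3 : s / 2 * k ≤ s / 2 * (1 / 2) := mul_le_mul_of_nonneg_left hinv20 (by linarith)
  have e : (1 - k) * (2 * A + 2 * B - (A + B - s / 2)) = A + B + s / 2 - (A * k + B * k + s / 2 * k) := by ring
  rw [e, e200, e160]
  linarith

/-- The remaining numerical facts. -/
theorem num_facts {r : ℝ} (hr1 : 1 < r) (h40 : 4 ≤ r ^ 40) (h80 : 16 ≤ r ^ 80) :
    2 * (4 / r ^ 320) * r ^ 200 ≤ 1 ∧
    Real.sqrt (4 / r ^ 320) * (Real.sqrt 2 * r ^ 400) / r ^ 160 ≤ 3 * r ^ 80 ∧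
    3 + 3 * r ^ 80 ≤ 4 * r ^ 100 * (1 / r ^ 20) ∧ 16 * r ^ 100 ≤ r ^ 180 ∧ 3 / (r ^ 160 - 1) ^ 2 ≤ 4 / r ^ 320 ∧
    1 < r ^ 160 := by
  have hrpos : 0 < r := by linarith
  have p200 := pow_pos hrpos 200
  have p320 := pow_pos hrpos 320
  have p160 := pow_pos hrpos 160
  have p100 := pow_pos hrpos 100
  have p20 := pow_pos hrpos 20
  have e320 : r ^ 320 = r ^ 160 * r ^ 160 := by rw [← pow_add]
  have e160 : r ^ 160 = r ^ 80 * r ^ 80 := by rw [← pow_add]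
  have h160 : 256 ≤ r ^ 160 := by
    rw [e160]
    nlinarith
  refine ⟨?_, ?_, ?_, ?_, ?_, by linarith⟩
  · have e : 2 * (4 / r ^ 320) * r ^ 200 = 8 * r ^ 200 / r ^ 320 := by ring
    rw [e, div_le_one p320]
    have e2 : r ^ 320 = r ^ 200 * (r ^ 80 * r ^ 40) := by rw [← pow_add, ← pow_add]
    rw [e2]
    have h3 : 8 ≤ r ^ 80 * r ^ 40 := by nlinarith
    nlinarith
  · have e1 : Real.sqrt (4 / r ^ 320) = 2 / r ^ 160 := by
      have : 4 / r ^ 320 = (2 / r ^ 160) ^ 2 := by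
        rw [div_pow, e320]
        ring
      rw [this]
      exact Real.sqrt_sq (by positivity)
    have e2 : Real.sqrt 2 ≤ 1.5 := Real.sqrt_le_iff.2 ⟨by norm_num, by norm_num⟩
    rw [e1, div_le_iff₀ p160]
    have e3 : 2 / r ^ 160 * (Real.sqrt 2 * r ^ 400) = 2 * Real.sqrt 2 * r ^ 240 := by
      have : r ^ 400 = r ^ 240 * r ^ 160 := by rw [← pow_add]
      rw [this, div_mul_eq_mul_div, div_eq_iff p160.ne']
      ring
    have e4 : 3 * r ^ 80 * r ^ 160 = 3 * r ^ 240 := by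
      rw [mul_assoc, ← pow_add]
    rw [e3, e4]
    have : 0 < r ^ 240 := pow_pos hrpos 240
    nlinarith
  · have e100 : r ^ 100 * (1 / r ^ 20) = r ^ 80 := by
      rw [mul_one_div, div_eq_iff p20.ne', ← pow_add]
    rw [mul_assoc, e100]
    linarith
  · have e : r ^ 180 = r ^ 100 * r ^ 80 := by rw [← pow_add]
    rw [e]
    nlinarith
  · rw [e320]
    generalize r ^ 160 = x at *
    rw [div_le_div_iff₀ (by nlinarith) (by positivity)]
    nlinarith

/-- **Output of C4.** -/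
theorem outC4_r (h1 : OutC1) (h2 : OutC2) (q : ℕ) (hq : 3 ≤ q) : ∃ M₀ : ℕ, ∀ M ≥ M₀, ∃ b₀ : ℕ, ∀ b ≥ b₀, ∀ [NeZero q],
    ∀ r : ℝ, 0 ≤ r → r ^ 400 = (M : ℝ) →
      pr (fun o : Om b M q => 2 * r ^ 200 + r ^ 160 < lam (HH o) 0) ≤ 4 / r ^ 320 ∧
      r ^ 200 - 2 * r ^ 180 ≤ av (fun o : Om b M q => ind (2 * r ^ 200 + r ^ 160) (HH o) *
        ∑ j ∈ Finset.range M, 1 / (2 * r ^ 200 + 2 * r ^ 160 - lam (HH o) j)) := by
  refine ⟨1048576, fun M hM => ?_⟩
  obtain ⟨b₀, hb₀⟩ := h1 M q (by omega) hq 1 one_pos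
  refine ⟨max b₀ 1, fun b hb _ r hr0 hrM => ?_⟩
  have hb1 : 1 ≤ b := (le_max_right _ _).trans hb
  have hav := hb₀ b ((le_max_left _ _).trans hb)
  have hMr : (1048576 : ℝ) ≤ r ^ 400 := by
    rw [hrM]
    exact_mod_cast hM
  obtain ⟨hr1, hr20, hr40, hr80⟩ := pow_sizes hr0 hMr
  have hrpos : 0 < r := by linarith
  obtain ⟨f1, f2⟩ := fr_facts hr1 hr20 hr40
  obtain ⟨n1, n2, n3, n4, n5, n6⟩ := num_facts hr1 hr40 hr80
  have hsq : Real.sqrt M = r ^ 200 := by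
    rw [← hrM, show r ^ 400 = (r ^ 200) ^ 2 by rw [← pow_mul]]
    exact Real.sqrt_sq (pow_nonneg hr0 200)
  rw [hsq] at hav
  have p200 := pow_pos hrpos 200
  have p160 := pow_pos hrpos 160
  have p100 := pow_pos hrpos 100
  have p20 := pow_pos hrpos 20
  have hprob : pr (fun o : Om b M q => 2 * r ^ 200 + r ^ 160 < lam (HH o) 0) ≤ 4 / r ^ 320 := by
    have h3 := cheb h2 hq (by omega : 1 ≤ M) hb1 (a := 2 * r ^ 200 + 1) (s := r ^ 160 - 1) hav (by linarith)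
    have e : 2 * r ^ 200 + 1 + (r ^ 160 - 1) = 2 * r ^ 200 + r ^ 160 := by ring
    rw [e] at h3
    exact h3.trans n5
  refine ⟨hprob, ?_⟩
  have hρ : av (fun o : Om b M q => 1 - ind (2 * r ^ 200 + r ^ 160) (HH o)) ≤ 4 / r ^ 320 := by
    refine le_trans (le_of_eq ?_) hprob
    unfold pr
    refine av_congr fun o => ?_
    unfold ind
    by_cases h : lam (HH o) 0 ≤ 2 * r ^ 200 + r ^ 160
    · rw [if_pos h, if_neg (not_lt.2 h), sub_self]
    · rw [if_neg h, if_pos (not_le.1 h), sub_zero]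
  have hzt : (2 * r ^ 200 + 2 * r ^ 160) - (2 * r ^ 200 + r ^ 160) = r ^ 160 := by ring
  have hz2 : 4 * (M : ℝ) + 1 ≤ (2 * r ^ 200 + 2 * r ^ 160) ^ 2 := by
    have e : (2 * r ^ 200 + 2 * r ^ 160) ^ 2 = 4 * r ^ 400 + 8 * (r ^ 200 * r ^ 160) + 4 * (r ^ 160 * r ^ 160) := by
      have : r ^ 400 = r ^ 200 * r ^ 200 := by rw [← pow_add]
      rw [this]
      ring
    rw [e, hrM]
    have h3 : 0 < r ^ 200 * r ^ 160 := mul_pos p200 p160
    nlinarith
  have hinv0 : 0 < 1 / r ^ 20 := by positivity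
  have hinv1 : 1 / r ^ 20 ≤ 1 := by
    rw [div_le_one p20]
    linarith
  have hfin := mS_ge (b := b) (q := q) (M := M) (by omega) (by omega) (t := 2 * r ^ 200 + r ^ 160)
    (z := 2 * r ^ 200 + 2 * r ^ 160) (ρ := 4 / r ^ 320) (κ := 1 / r ^ 20)
    (k1 := 3 * r ^ 80) (k' := 4 * r ^ 100) (by positivity) (by linarith) hρ hz2
    hinv0.le hinv1 (by rw [← hrM]; exact f1) (by rw [hsq]; exact n1) (by rw [hzt, ← hrM]; exact n2) n3 (by positivity) M
    le_rfl Finset.univ (by rw [Finset.card_univ, Fintype.card_fin])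
  have e3 : mS b q (2 * r ^ 200 + r ^ 160) (2 * r ^ 200 + 2 * r ^ 160) (Finset.univ : Finset (Fin M)) =
      av (fun o : Om b M q => ind (2 * r ^ 200 + r ^ 160) (HH o) *
        ∑ j ∈ Finset.range M, 1 / (2 * r ^ 200 + 2 * r ^ 160 - lam (HH o) j)) := by
    unfold mS
    refine av_congr fun o => ?_
    have h3 : zr (Finset.univᶜ : Finset (Fin M)) (HH o) = HH o := by
      funext a c
      unfold zr
      rw [if_neg]
      simp
    rw [h3, qr_trace (HH_hm30 o), Fintype.card_fin]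
  rw [← e3]
  refine le_trans ?_ hfin
  rw [← hrM]
  linarith

/-- `OutC4` from `OutC1` and `OutC2`. -/
theorem outC4 (h1 : OutC1) (h2 : OutC2) : OutC4 := by
  intro q hq
  obtain ⟨M₀, h⟩ := outC4_r h1 h2 q hq
  refine ⟨max M₀ 1, fun M hM => ?_⟩
  obtain ⟨b₀, h3⟩ := h M ((le_max_left _ _).trans hM)
  refine ⟨b₀, fun b hb _ => ?_⟩
  have hM1 : 1 ≤ M := (le_max_right _ _).trans hM
  have hM0 : (0 : ℝ) < M := by exact_mod_cast hM1
  have hr0 : 0 < rr M := Real.rpow_pos_of_pos hM0 _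
  have hrM : rr M ^ 400 = (M : ℝ) := by
    unfold rr
    rw [← Real.rpow_natCast, ← Real.rpow_mul hM0.le]
    norm_num
  obtain ⟨h4, h5⟩ := h3 b hb (rr M) hr0.le hrM
  have hsq : Real.sqrt M = rr M ^ 200 := by
    rw [← hrM, show rr M ^ 400 = (rr M ^ 200) ^ 2 by rw [← pow_mul]]
    exact Real.sqrt_sq (pow_nonneg hr0.le 200)
  have p20 := pow_pos hr0 20
  have p40 := pow_pos hr0 40
  have e40 : dd M ^ 2 = (rr M ^ 40)⁻¹ := by
    unfold dd
    rw [inv_pow, ← pow_mul]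
  have e1 : 2 * Real.sqrt M * (1 + dd M ^ 2 / 2) = 2 * rr M ^ 200 + rr M ^ 160 := by
    rw [hsq, e40]
    have : rr M ^ 200 * (rr M ^ 40)⁻¹ = rr M ^ 160 := by
      rw [← div_eq_mul_inv, div_eq_iff p40.ne', ← pow_add]
    linear_combination this
  have e2 : 2 * Real.sqrt M * (1 + dd M ^ 2) = 2 * rr M ^ 200 + 2 * rr M ^ 160 := by
    rw [hsq, e40]
    have : rr M ^ 200 * (rr M ^ 40)⁻¹ = rr M ^ 160 := by
      rw [← div_eq_mul_inv, div_eq_iff p40.ne', ← pow_add]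
    linear_combination 2 * this
  have e3 : Real.sqrt M * (1 - 2 * dd M) = rr M ^ 200 - 2 * rr M ^ 180 := by
    rw [hsq]
    unfold dd
    have : rr M ^ 200 * (rr M ^ 20)⁻¹ = rr M ^ 180 := by
      rw [← div_eq_mul_inv, div_eq_iff p20.ne', ← pow_add]
    linear_combination (-2) * this
  have e4 : (M : ℝ) * dd M ^ 4 = rr M ^ 320 := by
    have h6 : dd M ^ 4 = (rr M ^ 80)⁻¹ := by
      unfold dd
      rw [inv_pow, ← pow_mul]
    rw [h6, ← hrM, ← div_eq_mul_inv, div_eq_iff (pow_pos hr0 80).ne', ← pow_add]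
  rw [e1, e2, e3, e4]
  refine ⟨h4, h5.trans (le_of_eq (av_congr fun o => ?_))⟩
  unfold ind
  split_ifs
  · rw [one_mul]
  · rw [zero_mul]

end ACpFrege
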