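import Pool.Agent.H30.AF.Mom

/-!
helper30 (project MP_28250c_AF, C4): the average step from a minor to the next one.
-/

set_option autoImplicit false

namespace ACpFrege

variable {b M q : ℕ}

/-- The indicator function of `lam ≤ t`. -/
noncomputable def ind (t : ℝ) (H : Matrix (Fin M) (Fin M) ℂ) : ℝ := if lam H 0 ≤ t then 1 else 0

/-- The average of the partial trace of the resolvent of the minor `S` on the event `lam ≤ t`. -/
noncomputable def mS (b q : ℕ) (t z : ℝ) (S : Finset (Fin M)) [NeZero q] : ℝ :=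
  av (fun o : Om b M q => ind t (HH o) * ∑ v ∈ S, qr (zr Sᶜ (HH o)) z (Pi.single v 1))

theorem HH_hm30 (o : Om b M q) : (HH o).IsHermitian := by
  ext u v
  rw [Matrix.conjTranspose_apply]
  unfold HH lay
  rw [star_mul', RCLike.star_def, map_inv₀, Complex.conj_ofReal, map_sum]
  congr 1
  refine Finset.sum_congr rfl fun i _ => ?_
  rcases lt_trichotomy u v with h | h | h
  · rw [if_neg (not_lt.2 h.le), if_pos h, if_pos h, Complex.conj_conj]
  · subst h
    rw [if_neg (lt_irrefl _), if_neg (lt_irrefl _), map_pow, map_neg, map_one]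
  · rw [if_pos h, if_neg (not_lt.2 h.le), if_pos h]

theorem ind_nonneg (t : ℝ) (H : Matrix (Fin M) (Fin M) ℂ) : 0 ≤ ind t H := by
  unfold ind
  split_ifs <;> norm_num

theorem ind_le_one (t : ℝ) (H : Matrix (Fin M) (Fin M) ℂ) : ind t H ≤ 1 := by
  unfold ind
  split_ifs <;> norm_num

theorem ind_one {t : ℝ} {H : Matrix (Fin M) (Fin M) ℂ} (h : lam H 0 ≤ t) : ind t H = 1 := if_pos h

theorem ind_zero {t : ℝ} {H : Matrix (Fin M) (Fin M) ℂ} (h : ¬ lam H 0 ≤ t) : ind t H = 0 := if_neg h

/-- The step: for `u ∈ S`, with `ρ` at least the probability of `lam > t`. -/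
theorem step_av [NeZero q] (hq : 2 ≤ q) (hb : 0 < b) {t z ρ : ℝ} (ht : 0 ≤ t) (hz : t < z)
    (hρ : av (fun o : Om b M q => 1 - ind t (HH o)) ≤ ρ) {S : Finset (Fin M)} {u : Fin M} (hu : u ∈ S) {B : ℝ} (hB : 0 < B) :
    2 * (1 - ρ) / B - (z + 1 + Real.sqrt ρ * (Real.sqrt 2 * M) / (z - t) - mS b q t z (S.erase u)) / B ^ 2 ≤
      av (fun o : Om b M q => ind t (HH o) * qr (zr Sᶜ (HH o)) z (Pi.single u 1)) := by
  set T := S.erase u with hT
  have huT : u ∉ T := by simp [hT]
  have hz0 : 0 < z := lt_of_le_of_lt ht hz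
  have hzt : 0 < z - t := by linarith
  have hρ0 : 0 ≤ ρ := le_trans (av_nonneg fun o => by linarith [ind_le_one t (HH (b := b) (q := q) o)]) hρ
  -- pointwise
  have h1 : ∀ o : Om b M q, ind t (HH o) * (2 / B) - (1 / B ^ 2) * (ind t (HH o) * (z - (HH o u u).re -
      qr (zr Tᶜ (HH o)) z (colv T u (HH o)))) ≤ ind t (HH o) * qr (zr Sᶜ (HH o)) z (Pi.single u 1) := by
    intro o
    unfold ind
    by_cases h : lam (HH o) 0 ≤ t
    · rw [if_pos h]
      have h2 := qr_step (HH_hm30 o) hz0 hu (lt_of_le_of_lt (lam_zr_le30 (HH_hm30 o) _ h ht) hz)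
        (lt_of_le_of_lt (lam_zr_le30 (HH_hm30 o) _ h ht) hz) (1 / B)
      rw [← hT] at h2
      have e : 2 * (1 / B) - (1 / B) ^ 2 * (z - (HH o u u).re - qr (zr Tᶜ (HH o)) z (colv T u (HH o))) =
        1 * (2 / B) - 1 / B ^ 2 * (1 * (z - (HH o u u).re - qr (zr Tᶜ (HH o)) z (colv T u (HH o)))) := by
        rw [one_mul, one_mul, one_div, one_div, inv_pow]
        ring
      rw [← e, one_mul]
      exact h2
    · rw [if_neg h]
      simp
  refine le_trans ?_ (av_mono h1)
  -- the averages
  have hi : av (fun o : Om b M q => ind t (HH o)) = 1 - av (fun o : Om b M q => 1 - ind t (HH o)) := by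
    rw [av_sub, av_const]
    ring
  have hi1 : 1 - ρ ≤ av (fun o : Om b M q => ind t (HH o)) := by linarith
  -- the diagonal term
  have hd : - 1 ≤ av (fun o : Om b M q => ind t (HH o) * (HH o u u).re) := by
    have h2 : av (fun o : Om b M q => ind t (HH o) * (HH o u u).re) ^ 2 ≤ 1 := by
      refine (av_cs _ _).trans ?_
      rw [av_diag (by omega) hb, mul_one]
      refine (av_mono (g := fun _ => 1) fun o => ?_).trans (le_of_eq (av_const 1))
      unfold ind
      split_ifs <;> norm_num
    nlinarith [sq_nonneg (av (fun o : Om b M q => ind t (HH o) * (HH o u u).re) + 1)]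
  -- the column term
  set g : Om b M q → ℝ := fun o => ind t (zr Tᶜ (HH o)) with hg
  have hinv : Inv u g := by
    intro i v s o hv
    have h3 := inv_zr (b := b) (q := q) huT i v s o hv
    simp only at h3
    simp only [hg, h3]
  have hge : ∀ o : Om b M q, ind t (HH o) ≤ g o := by
    intro o
    show ind t (HH o) ≤ ind t (zr Tᶜ (HH o))
    by_cases h : lam (HH o) 0 ≤ t
    · rw [ind_one h, ind_one (lam_zr_le30 (HH_hm30 o) _ h ht)]
    · rw [ind_zero h]
      exact ind_nonneg _ _
  have hq0 : ∀ (o : Om b M q) (r : Fin M → ℂ), 0 ≤ g o * qr (zr Tᶜ (HH o)) z r := by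
    intro o r
    show 0 ≤ ind t (zr Tᶜ (HH o)) * qr (zr Tᶜ (HH o)) z r
    by_cases h : lam (zr Tᶜ (HH o)) 0 ≤ t
    · rw [ind_one h, one_mul]
      exact qr_nonneg (zr_herm (HH_hm30 o) _) (lt_of_le_of_lt h hz) r
    · rw [ind_zero h, zero_mul]
  have hc : mS b q t z T - Real.sqrt ρ * (Real.sqrt 2 * M) / (z - t) ≤
      av (fun o : Om b M q => ind t (HH o) * qr (zr Tᶜ (HH o)) z (colv T u (HH o))) := by
    have h2 : ∀ o : Om b M q, ind t (HH o) * qr (zr Tᶜ (HH o)) z (colv T u (HH o)) =
        g o * qr (zr Tᶜ (HH o)) z (colv T u (HH o)) -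
          (g o - ind t (HH o)) * qr (zr Tᶜ (HH o)) z (colv T u (HH o)) := by
      intro o
      ring
    rw [av_congr h2, av_sub, av_qr (by omega) hb huT z hinv]
    have h3 : mS b q t z T ≤ av (fun o : Om b M q => g o * ∑ v ∈ T, qr (zr Tᶜ (HH o)) z (Pi.single v 1)) := by
      refine av_mono fun o => ?_
      rw [Finset.mul_sum, Finset.mul_sum]
      refine Finset.sum_le_sum fun v _ => ?_
      by_cases h : lam (HH o) 0 ≤ t
      · refine mul_le_mul_of_nonneg_right (hge o) ?_
        exact qr_nonneg (zr_herm (HH_hm30 o) _) (lt_of_le_of_lt (lam_zr_le30 (HH_hm30 o) _ h ht) hz) _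
      · have : ind t (HH o) = 0 := by
          unfold ind
          rw [if_neg h]
        rw [this, zero_mul]
        exact hq0 o _
    have h4 : av (fun o : Om b M q => (g o - ind t (HH o)) * qr (zr Tᶜ (HH o)) z (colv T u (HH o))) ≤
        Real.sqrt ρ * (Real.sqrt 2 * M) / (z - t) := by
      have h5 : ∀ o : Om b M q, (g o - ind t (HH o)) * qr (zr Tᶜ (HH o)) z (colv T u (HH o)) ≤
          (1 / (z - t)) * ((g o - ind t (HH o)) * nsq (colv T u (HH o))) := by
        intro o
        by_cases h : lam (zr Tᶜ (HH o)) 0 ≤ t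
        · have h6 := qr_le (zr_herm (HH_hm30 o) Tᶜ) h hz (colv T u (HH o))
          have h7 : 0 ≤ g o - ind t (HH o) := by linarith [hge o]
          calc (g o - ind t (HH o)) * qr (zr Tᶜ (HH o)) z (colv T u (HH o)) ≤
              (g o - ind t (HH o)) * (nsq (colv T u (HH o)) / (z - t)) := mul_le_mul_of_nonneg_left h6 h7
            _ = _ := by ring
        · have h6 : g o = 0 := ind_zero h
          have h7 : ind t (HH o) = 0 := le_antisymm ((hge o).trans h6.le) (ind_nonneg _ _)
          rw [h6, h7]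
          simp
      refine (av_mono h5).trans ?_
      rw [av_mul]
      have h8 : av (fun o : Om b M q => (g o - ind t (HH o)) * nsq (colv T u (HH o))) ≤
          Real.sqrt ρ * (Real.sqrt 2 * M) := by
        have h9 : av (fun o : Om b M q => (g o - ind t (HH o)) * nsq (colv T u (HH o))) ^ 2 ≤
            ρ * (2 * (M : ℝ) ^ 2) := by
          refine (av_cs _ _).trans ?_
          refine mul_le_mul ?_ (av_nsq_col hq hb huT) (av_nonneg fun o => by positivity) hρ0
          refine (av_mono fun o => ?_).trans hρ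
          have h10 := hge o
          have h11 := ind_nonneg t (HH o)
          have h12 : g o ≤ 1 := ind_le_one _ _
          nlinarith
        have h13 : (Real.sqrt ρ * (Real.sqrt 2 * M)) ^ 2 = ρ * (2 * (M : ℝ) ^ 2) := by
          rw [mul_pow, mul_pow, Real.sq_sqrt hρ0, Real.sq_sqrt (by norm_num)]
        refine le_of_sq_le_sq ?_ (by positivity)
        rw [h13]
        exact h9
      calc 1 / (z - t) * av (fun o : Om b M q => (g o - ind t (HH o)) * nsq (colv T u (HH o))) ≤
          1 / (z - t) * (Real.sqrt ρ * (Real.sqrt 2 * M)) := mul_le_mul_of_nonneg_left h8 (by positivity)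
        _ = _ := by ring
    linarith
  have e1 : av (fun o : Om b M q => ind t (HH o) * (2 / B) - (1 / B ^ 2) * (ind t (HH o) * (z - (HH o u u).re -
      qr (zr Tᶜ (HH o)) z (colv T u (HH o))))) =
      (2 / B) * av (fun o : Om b M q => ind t (HH o)) - (1 / B ^ 2) * (z * av (fun o : Om b M q => ind t (HH o)) -
        av (fun o : Om b M q => ind t (HH o) * (HH o u u).re) -
        av (fun o : Om b M q => ind t (HH o) * qr (zr Tᶜ (HH o)) z (colv T u (HH o)))) := by
    rw [← av_mul, ← av_mul, ← av_sub, ← av_sub, ← av_mul, ← av_sub]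
    refine av_congr fun o => by ring
  rw [e1]
  have hi2 : av (fun o : Om b M q => ind t (HH o)) ≤ 1 :=
    (av_mono fun o => ind_le_one t (HH o)).trans (le_of_eq (av_const 1))
  have h20 : z * av (fun o : Om b M q => ind t (HH o)) - av (fun o : Om b M q => ind t (HH o) * (HH o u u).re) -
        av (fun o : Om b M q => ind t (HH o) * qr (zr Tᶜ (HH o)) z (colv T u (HH o))) ≤
      z + 1 + Real.sqrt ρ * (Real.sqrt 2 * M) / (z - t) - mS b q t z T := by
    nlinarith
  have h21 : (1 / B ^ 2) * (z * av (fun o : Om b M q => ind t (HH o)) -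
        av (fun o : Om b M q => ind t (HH o) * (HH o u u).re) -
        av (fun o : Om b M q => ind t (HH o) * qr (zr Tᶜ (HH o)) z (colv T u (HH o)))) ≤
      (z + 1 + Real.sqrt ρ * (Real.sqrt 2 * M) / (z - t) - mS b q t z T) / B ^ 2 := by
    rw [one_div, inv_mul_eq_div]
    exact div_le_div_of_nonneg_right h20 (by positivity)
  have h22 : 2 * (1 - ρ) / B ≤ (2 / B) * av (fun o : Om b M q => ind t (HH o)) := by
    rw [mul_div_right_comm]
    exact mul_le_mul_of_nonneg_left hi1 (by positivity)
  linarith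

end ACpFrege
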