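import Pool.Agent.H30.AF.Orth

/-!
helper30 (project MP_28250c_AF, C4): fourth moment of the entries, second moment of the diagonal entries.
-/

set_option autoImplicit false

namespace ACpFrege

variable {b M q : ℕ}

/-- The sum of the entries of the first `k` layers. -/
noncomputable def psum (v u : Fin M) (k : ℕ) (o : Om b M q) : ℂ :=
  ∑ i ∈ Finset.univ.filter (fun i : Fin b => i.val < k), lay (o i) v u

theorem psum_zero (v u : Fin M) (o : Om b M q) : psum v u 0 o = 0 := by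
  unfold psum
  rw [Finset.filter_eq_empty_iff.2, Finset.sum_empty]
  intro i _
  exact Nat.not_lt_zero _

theorem psum_succ (v u : Fin M) {k : ℕ} (hk : k < b) (o : Om b M q) :
    psum v u (k + 1) o = psum v u k o + lay (o ⟨k, hk⟩) v u := by
  unfold psum
  have h : Finset.univ.filter (fun i : Fin b => i.val < k + 1) =
      insert (⟨k, hk⟩ : Fin b) (Finset.univ.filter (fun i : Fin b => i.val < k)) := by
    ext i
    simp only [Finset.mem_filter, Finset.mem_univ, true_and, Finset.mem_insert, Fin.ext_iff]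
    omega
  rw [h, Finset.sum_insert, add_comm]
  simp

theorem psum_all (v u : Fin M) (o : Om b M q) : HH o v u = ((Real.sqrt b)⁻¹ : ℂ) * psum v u b o := by
  unfold HH psum
  congr 1
  rw [Finset.filter_true_of_mem]
  intro i _
  exact i.2

theorem psum_sht [NeZero q] {v u : Fin M} {k : ℕ} (hk : k < b) (s : ZMod (2 * q)) (o : Om b M q) :
    psum v u k (sht ⟨k, hk⟩ v u s o) = psum v u k o := by
  unfold psum
  refine Finset.sum_congr rfl fun i hi => ?_
  refine lay_sht_ne _ _ _ _ _ _ _ _ ?_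
  rintro ⟨h, _⟩
  rw [h] at hi
  simp at hi

/-- A function of the first `k` layers times a power of the entry of layer `k` sums up to zero. -/
theorem sum_psum_mul [NeZero q] {v u : Fin M} (hvu : v ≠ u) {k : ℕ} (hk : k < b) {m : ℕ} (hm0 : 0 < m) (hm : m < 2 * q)
    (F : ℂ → ℂ) : ∑ o : Om b M q, F (psum v u k o) * lay (o ⟨k, hk⟩) v u ^ m = 0 := by
  have h1 : ∑ o : Om b M q, F (psum v u k o) * lay (o ⟨k, hk⟩) v u ^ m =
      om (2 * q) 1 ^ m * ∑ o : Om b M q, F (psum v u k o) * lay (o ⟨k, hk⟩) v u ^ m := by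
    refine (sum_sht ⟨k, hk⟩ v u 1 _).symm.trans ?_
    rw [Finset.mul_sum]
    refine Finset.sum_congr rfl fun o _ => ?_
    rw [psum_sht, lay_sht_self _ hvu]
    ring
  have h2 : (1 - om (2 * q) 1 ^ m) * ∑ o : Om b M q, F (psum v u k o) * lay (o ⟨k, hk⟩) v u ^ m = 0 := by
    rw [sub_mul, one_mul, ← h1, sub_self]
  rcases mul_eq_zero.1 h2 with h3 | h3
  · exact absurd (sub_eq_zero.1 h3).symm (om_one_pow_ne hm0 hm)
  · exact h3

theorem av_re_psum_mul [NeZero q] {v u : Fin M} (hvu : v ≠ u) {k : ℕ} (hk : k < b) {m : ℕ} (hm0 : 0 < m) (hm : m < 2 * q)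
    (F : ℂ → ℂ) : av (fun o : Om b M q => (F (psum v u k o) * lay (o ⟨k, hk⟩) v u ^ m).re) = 0 := by
  unfold av
  rw [← Complex.re_sum, sum_psum_mul hvu hk hm0 hm, Complex.zero_re, zero_div]

theorem av_psum_two [NeZero q] (hq : 1 ≤ q) {v u : Fin M} (hvu : v ≠ u) {k : ℕ} (hk : k ≤ b) :
    av (fun o : Om b M q => ‖psum v u k o‖ ^ 2) = k := by
  induction k with
  | zero => simp [psum_zero, av]
  | succ k ih =>
    have h1 : ∀ o : Om b M q, ‖psum v u (k + 1) o‖ ^ 2 = ‖psum v u k o‖ ^ 2 +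
        (2 * ((starRingEnd ℂ) (psum v u k o) * lay (o ⟨k, hk⟩) v u ^ 1).re + 1) := by
      intro o
      rw [psum_succ v u hk, ← Complex.normSq_eq_norm_sq, Complex.normSq_add, Complex.normSq_eq_norm_sq,
        Complex.normSq_eq_norm_sq, lay_nrm30, pow_one]
      have h2 : (psum v u k o * (starRingEnd ℂ) (lay (o ⟨k, hk⟩) v u)).re =
          ((starRingEnd ℂ) (psum v u k o) * lay (o ⟨k, hk⟩) v u).re := by
        rw [← Complex.conj_re, map_mul, Complex.conj_conj]
      rw [h2]
      ring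
    rw [av_congr h1, av_add, av_add, av_mul, av_re_psum_mul hvu hk one_pos (by omega), av_const, ih (by omega)]
    push_cast
    ring

theorem av_psum_four [NeZero q] (hq : 2 ≤ q) {v u : Fin M} (hvu : v ≠ u) {k : ℕ} (hk : k ≤ b) :
    av (fun o : Om b M q => ‖psum v u k o‖ ^ 4) ≤ 2 * (k : ℝ) ^ 2 := by
  induction k with
  | zero => simp [psum_zero, av]
  | succ k ih =>
    have h1 : ∀ o : Om b M q, ‖psum v u (k + 1) o‖ ^ 4 = ‖psum v u k o‖ ^ 4 + (4 * ‖psum v u k o‖ ^ 2 + (1 +
        (4 * ((fun w : ℂ => ((‖w‖ : ℂ) ^ 2 + 1) * (starRingEnd ℂ) w) (psum v u k o) * lay (o ⟨k, hk⟩) v u ^ 1).re +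
         2 * ((fun w : ℂ => (starRingEnd ℂ) w ^ 2) (psum v u k o) * lay (o ⟨k, hk⟩) v u ^ 2).re))) := by
      intro o
      have h3 : ‖psum v u (k + 1) o‖ ^ 2 = ‖psum v u k o‖ ^ 2 +
        (2 * ((starRingEnd ℂ) (psum v u k o) * lay (o ⟨k, hk⟩) v u).re + 1) := by
        rw [psum_succ v u hk, ← Complex.normSq_eq_norm_sq, Complex.normSq_add, Complex.normSq_eq_norm_sq,
          Complex.normSq_eq_norm_sq, lay_nrm30]
        have h2 : (psum v u k o * (starRingEnd ℂ) (lay (o ⟨k, hk⟩) v u)).re =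
            ((starRingEnd ℂ) (psum v u k o) * lay (o ⟨k, hk⟩) v u).re := by
          rw [← Complex.conj_re, map_mul, Complex.conj_conj]
        rw [h2]
        ring
      set w := psum v u k o with hw
      set e := lay (o ⟨k, hk⟩) v u with he
      have hen : ‖e‖ = 1 := lay_nrm30 _ _ _
      set y := (starRingEnd ℂ) w * e with hy
      have hyn : y.re ^ 2 + y.im ^ 2 = ‖w‖ ^ 2 := by
        have : ‖y‖ ^ 2 = ‖w‖ ^ 2 := by rw [hy, norm_mul, RCLike.norm_conj, hen, mul_one]
        rw [← this, ← Complex.normSq_eq_norm_sq, Complex.normSq_apply]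
        ring
      have h4 : ((fun w : ℂ => ((‖w‖ : ℂ) ^ 2 + 1) * (starRingEnd ℂ) w) w * e ^ 1).re = (‖w‖ ^ 2 + 1) * y.re := by
        have : (fun w : ℂ => ((‖w‖ : ℂ) ^ 2 + 1) * (starRingEnd ℂ) w) w * e ^ 1 = ((‖w‖ ^ 2 + 1 : ℝ) : ℂ) * y := by
          rw [hy]
          push_cast
          ring
        rw [this, Complex.re_ofReal_mul]
      have h5 : ((fun w : ℂ => (starRingEnd ℂ) w ^ 2) w * e ^ 2).re = y.re ^ 2 - y.im ^ 2 := by
        have : (fun w : ℂ => (starRingEnd ℂ) w ^ 2) w * e ^ 2 = y * y := by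
          rw [hy]
          ring
        rw [this, Complex.mul_re]
        ring
      rw [h4, h5]
      have h6 : ‖psum v u (k + 1) o‖ ^ 4 = (‖psum v u (k + 1) o‖ ^ 2) ^ 2 := by ring
      rw [h6, h3]
      nlinarith [hyn]
    rw [av_congr h1, av_add, av_add, av_add, av_add, av_mul, av_mul, av_mul,
      av_re_psum_mul hvu hk one_pos (by omega) (fun w : ℂ => ((‖w‖ : ℂ) ^ 2 + 1) * (starRingEnd ℂ) w),
      av_re_psum_mul hvu hk two_pos (by omega) (fun w : ℂ => (starRingEnd ℂ) w ^ 2), av_const,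
      av_psum_two (by omega) hvu (by omega)]
    have := ih (by omega)
    push_cast
    nlinarith

/-- **The fourth moment of an off-diagonal entry is at most 2.** -/
theorem av_four [NeZero q] (hq : 2 ≤ q) (hb : 0 < b) {v u : Fin M} (hvu : v ≠ u) :
    av (fun o : Om b M q => ‖HH o v u‖ ^ 4) ≤ 2 := by
  have hb' : (0 : ℝ) < b := by exact_mod_cast hb
  have h1 : ∀ o : Om b M q, ‖HH o v u‖ ^ 4 = (((b : ℝ)) ^ 2)⁻¹ * ‖psum v u b o‖ ^ 4 := by
    intro o
    rw [psum_all, norm_mul, norm_inv, Complex.norm_real, Real.norm_eq_abs, abs_of_nonneg (Real.sqrt_nonneg _), mul_pow,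
      inv_pow]
    congr 2
    have : Real.sqrt b ^ 4 = (Real.sqrt b ^ 2) ^ 2 := by ring
    rw [this, Real.sq_sqrt hb'.le]
  rw [av_congr h1, av_mul]
  have h2 := av_psum_four (b := b) (M := M) (q := q) hq hvu le_rfl
  rw [inv_mul_le_iff₀ (by positivity)]
  linarith

/-- The sum of the diagonal entries of the first `k` layers. -/
noncomputable def dsum (u : Fin M) (k : ℕ) (o : Om b M q) : ℝ :=
  ∑ i ∈ Finset.univ.filter (fun i : Fin b => i.val < k), (-1 : ℝ) ^ (o i u u).val

theorem dsum_succ (u : Fin M) {k : ℕ} (hk : k < b) (o : Om b M q) :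
    dsum u (k + 1) o = dsum u k o + (-1 : ℝ) ^ (o ⟨k, hk⟩ u u).val := by
  unfold dsum
  have h : Finset.univ.filter (fun i : Fin b => i.val < k + 1) =
      insert (⟨k, hk⟩ : Fin b) (Finset.univ.filter (fun i : Fin b => i.val < k)) := by
    ext i
    simp only [Finset.mem_filter, Finset.mem_univ, true_and, Finset.mem_insert, Fin.ext_iff]
    omega
  rw [h, Finset.sum_insert, add_comm]
  simp

theorem diag_eq (u : Fin M) (o : Om b M q) : (HH o u u).re = (Real.sqrt b)⁻¹ * dsum u b o := by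
  unfold HH dsum lay
  rw [← Complex.ofReal_inv, Complex.re_ofReal_mul, Complex.re_sum, Finset.filter_true_of_mem]
  · congr 1
    refine Finset.sum_congr rfl fun i _ => ?_
    rw [if_neg (lt_irrefl _), if_neg (lt_irrefl _)]
    have : ((-1 : ℂ)) ^ (o i u u).val = (((-1 : ℝ) ^ (o i u u).val : ℝ) : ℂ) := by push_cast; rfl
    rw [this, Complex.ofReal_re]
  · intro i _
    exact i.2

theorem neg_one_shift [NeZero q] (hq : 1 ≤ q) (a : ZMod (2 * q)) : (-1 : ℝ) ^ (a + 1).val = - (-1 : ℝ) ^ a.val := by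
  have hval : (1 : ZMod (2 * q)).val = 1 := by
    have : Fact (1 < 2 * q) := ⟨by omega⟩
    exact ZMod.val_one (2 * q)
  have h := sgn_add (q := q) a 1
  rw [hval, pow_one] at h
  have h2 : (((-1 : ℝ) ^ (a + 1).val : ℝ) : ℂ) = ((- (-1 : ℝ) ^ a.val : ℝ) : ℂ) := by
    push_cast
    rw [h]
    ring
  exact_mod_cast h2

theorem av_dsum [NeZero q] (hq : 1 ≤ q) (u : Fin M) {k : ℕ} (hk : k ≤ b) :
    av (fun o : Om b M q => dsum u k o ^ 2) = k := by
  induction k with
  | zero =>
    have : ∀ o : Om b M q, dsum u 0 o ^ 2 = 0 := by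
      intro o
      unfold dsum
      rw [Finset.filter_eq_empty_iff.2, Finset.sum_empty]
      · norm_num
      · intro i _
        exact Nat.not_lt_zero _
    rw [av_congr this]
    simp [av]
  | succ k ih =>
    have h0 : av (fun o : Om b M q => dsum u k o * (-1 : ℝ) ^ (o ⟨k, hk⟩ u u).val) = 0 := by
      have h1 : av (fun o : Om b M q => dsum u k o * (-1 : ℝ) ^ (o ⟨k, hk⟩ u u).val) =
          - av (fun o : Om b M q => dsum u k o * (-1 : ℝ) ^ (o ⟨k, hk⟩ u u).val) := by
        rw [← av_neg]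
        refine (av_shf ⟨k, hk⟩ u u 1 _).symm.trans (av_congr fun o => ?_)
        rw [shf_self, neg_one_shift hq]
        have h2 : dsum u k (shf ⟨k, hk⟩ u u 1 o) = dsum u k o := by
          unfold dsum
          refine Finset.sum_congr rfl fun i hi => ?_
          rw [shf_ne]
          rintro ⟨h, _⟩
          rw [h] at hi
          simp at hi
        rw [h2]
        ring
      linarith
    have h1 : ∀ o : Om b M q, dsum u (k + 1) o ^ 2 = dsum u k o ^ 2 +
        (2 * (dsum u k o * (-1 : ℝ) ^ (o ⟨k, hk⟩ u u).val) + 1) := by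
      intro o
      rw [dsum_succ u hk]
      have : ((-1 : ℝ) ^ (o ⟨k, hk⟩ u u).val) ^ 2 = 1 := by
        rw [← pow_mul, mul_comm, pow_mul, neg_one_sq, one_pow]
      linear_combination this
    rw [av_congr h1, av_add, av_add, av_mul, h0, av_const, ih (by omega)]
    push_cast
    ring

/-- **The second moment of a diagonal entry is 1.** -/
theorem av_diag [NeZero q] (hq : 1 ≤ q) (hb : 0 < b) (u : Fin M) :
    av (fun o : Om b M q => (HH o u u).re ^ 2) = 1 := by
  have hb' : (0 : ℝ) < b := by exact_mod_cast hb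
  have h1 : ∀ o : Om b M q, (HH o u u).re ^ 2 = ((b : ℝ))⁻¹ * dsum u b o ^ 2 := by
    intro o
    rw [diag_eq, mul_pow, inv_pow, Real.sq_sqrt hb'.le]
  rw [av_congr h1, av_mul, av_dsum hq u le_rfl]
  field_simp

/-- The second moment of the squared norm of a part of a column. -/
theorem av_nsq_col [NeZero q] (hq : 2 ≤ q) (hb : 0 < b) {u : Fin M} {S : Finset (Fin M)} (hu : u ∉ S) :
    av (fun o : Om b M q => nsq (colv S u (HH o)) ^ 2) ≤ 2 * (M : ℝ) ^ 2 := by
  have h1 : ∀ o : Om b M q, nsq (colv S u (HH o)) ^ 2 ≤ (M : ℝ) * ∑ v ∈ S, ‖HH o v u‖ ^ 4 := by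
    intro o
    have h2 : nsq (colv S u (HH o)) = ∑ v ∈ S, ‖HH o v u‖ ^ 2 := by
      unfold nsq colv
      rw [← Finset.sum_filter_add_sum_filter_not Finset.univ (fun v => v ∈ S)]
      have h3 : ∑ v ∈ Finset.univ.filter (fun v => ¬ v ∈ S), ‖(if v ∈ S then HH o v u else 0)‖ ^ 2 = 0 := by
        refine Finset.sum_eq_zero fun v hv => ?_
        rw [if_neg (Finset.mem_filter.1 hv).2, norm_zero, zero_pow two_ne_zero]
      rw [h3, add_zero]
      refine Finset.sum_congr (by ext v; simp) fun v hv => ?_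
      rw [if_pos hv]
    rw [h2]
    have h4 := sq_sum_le_card_mul_sum_sq (s := S) (f := fun v => ‖HH o v u‖ ^ 2)
    refine h4.trans ?_
    have h5 : ∑ v ∈ S, (‖HH o v u‖ ^ 2) ^ 2 = ∑ v ∈ S, ‖HH o v u‖ ^ 4 :=
      Finset.sum_congr rfl fun v _ => by ring
    rw [h5]
    refine mul_le_mul_of_nonneg_right ?_ (Finset.sum_nonneg fun v _ => by positivity)
    have := Finset.card_le_univ S
    rw [Fintype.card_fin] at this
    exact_mod_cast this
  refine (av_mono h1).trans ?_
  rw [av_mul, av_sum]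
  have h6 : ∑ v ∈ S, av (fun o : Om b M q => ‖HH o v u‖ ^ 4) ≤ (M : ℝ) * 2 := by
    refine (Finset.sum_le_sum fun v hv => av_four hq hb (fun h => hu (by rw [← h]; exact hv))).trans ?_
    rw [Finset.sum_const, nsmul_eq_mul]
    refine mul_le_mul_of_nonneg_right ?_ (by norm_num)
    have := Finset.card_le_univ S
    rw [Fintype.card_fin] at this
    exact_mod_cast this
  nlinarith [Nat.cast_nonneg (α := ℝ) M]

end ACpFrege
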