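import Pool.Agent.H88.AF.Av

/-!
helper30 (project MP_28250c_AF, C4): the resolvent form `qr H z r = ⟨r, (z - H)⁻¹ r⟩`, its variational characterisation, and the
bound for the diagonal entry of the resolvent of a minor through the next smaller minor.
-/

set_option autoImplicit false

namespace ACpFrege

section res

variable {ι : Type} [Fintype ι] [DecidableEq ι]

/-- The quadratic form of the resolvent. -/
noncomputable def qr (H : Matrix ι ι ℂ) (z : ℝ) (r : ι → ℂ) : ℝ :=
  ∑ j ∈ Finset.range (Fintype.card ι), ‖ip (xi H j) r‖ ^ 2 / (z - lam H j)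

/-- The resolvent applied to a vector. -/
noncomputable def rsv (H : Matrix ι ι ℂ) (z : ℝ) (r : ι → ℂ) : ι → ℂ :=
  ∑ j ∈ Finset.range (Fintype.card ι), (((z - lam H j)⁻¹ : ℝ) * ip (xi H j) r) • xi H j

variable {H : Matrix ι ι ℂ} {z : ℝ}

theorem lam_lt (hH : H.IsHermitian) (hz : lam H 0 < z) {j : ℕ} (hj : j < Fintype.card ι) : 0 < z - lam H j := by
  have := lam_anti hH (Nat.zero_le j) hj
  linarith

theorem ip_rsv (r y : ι → ℂ) : ip y (rsv H z r) =
    ∑ j ∈ Finset.range (Fintype.card ι), ((z - lam H j)⁻¹ : ℝ) * ip (xi H j) r * (starRingEnd ℂ) (ip (xi H j) y) := by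
  unfold rsv
  rw [ip_sum_right]
  refine Finset.sum_congr rfl fun j _ => ?_
  rw [ip_smul_right, ip_conj]

theorem ip_rsv_self (r : ι → ℂ) : ip r (rsv H z r) = (qr H z r : ℂ) := by
  rw [ip_rsv, qr]
  push_cast
  refine Finset.sum_congr rfl fun j _ => ?_
  rw [mul_assoc, Complex.mul_conj']
  ring

/-- `(z - H) (z - H)⁻¹ r = r`. -/
theorem rsv_eq (hH : H.IsHermitian) (hz : lam H 0 < z) (r : ι → ℂ) :
    (z : ℂ) • rsv H z r - H.mulVec (rsv H z r) = r := by
  have h1 : H.mulVec (rsv H z r) = ∑ j ∈ Finset.range (Fintype.card ι),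
      ((((z - lam H j)⁻¹ : ℝ) * ip (xi H j) r) * (lam H j : ℂ)) • xi H j := by
    unfold rsv
    rw [Matrix.mulVec_sum]
    refine Finset.sum_congr rfl fun j hj => ?_
    rw [Matrix.mulVec_smul, xi_eig hH (Finset.mem_range.1 hj), smul_smul]
  rw [h1]
  unfold rsv
  rw [Finset.smul_sum, ← Finset.sum_sub_distrib]
  conv_rhs => rw [xi_expand hH r]
  refine Finset.sum_congr rfl fun j hj => ?_
  rw [smul_smul, ← sub_smul]
  congr 1
  have h2 : ((z - lam H j : ℝ) : ℂ) ≠ 0 := by
    exact_mod_cast (lam_lt hH hz (Finset.mem_range.1 hj)).ne'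
  push_cast at h2 ⊢
  field_simp

/-- The variational bound. -/
theorem qr_ge (hH : H.IsHermitian) (hz : lam H 0 < z) (r y : ι → ℂ) :
    2 * (ip r y).re - (z * nsq y - (ip y (H.mulVec y)).re) ≤ qr H z r := by
  rw [form_re hH, nsq_expand hH y, ip_expand hH r y, Complex.re_sum, Finset.mul_sum, Finset.mul_sum, ← Finset.sum_sub_distrib,
    ← Finset.sum_sub_distrib]
  refine Finset.sum_le_sum fun j hj => ?_
  have ht := lam_lt hH hz (Finset.mem_range.1 hj)
  have h1 : ((starRingEnd ℂ) (ip (xi H j) r) * ip (xi H j) y).re ≤ ‖ip (xi H j) r‖ * ‖ip (xi H j) y‖ := by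
    refine (Complex.re_le_norm _).trans (le_of_eq ?_)
    rw [norm_mul, RCLike.norm_conj]
  rw [le_div_iff₀ ht]
  nlinarith [sq_nonneg (‖ip (xi H j) r‖ - (z - lam H j) * ‖ip (xi H j) y‖), mul_le_mul_of_nonneg_left h1 ht.le]

/-- Equality in the variational bound. -/
theorem qr_eq (hH : H.IsHermitian) (hz : lam H 0 < z) (r : ι → ℂ) :
    z * nsq (rsv H z r) - (ip (rsv H z r) (H.mulVec (rsv H z r))).re = qr H z r := by
  have h1 := congrArg (ip (rsv H z r)) (rsv_eq hH hz r)
  rw [ip_sub_right, ip_smul_right, ip_self] at h1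
  have h2 := congrArg Complex.re h1
  rw [Complex.sub_re, ← Complex.ofReal_mul, Complex.ofReal_re, ip_re_comm (rsv H z r) r, ip_rsv_self, Complex.ofReal_re] at h2
  exact h2

theorem qr_nonneg (hH : H.IsHermitian) (hz : lam H 0 < z) (r : ι → ℂ) : 0 ≤ qr H z r :=
  Finset.sum_nonneg fun j hj => div_nonneg (by positivity) (lam_lt hH hz (Finset.mem_range.1 hj)).le

/-- Upper bound for the resolvent form. -/
theorem qr_le (hH : H.IsHermitian) {t : ℝ} (ht : lam H 0 ≤ t) (hz : t < z) (r : ι → ℂ) :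
    qr H z r ≤ nsq r / (z - t) := by
  rw [nsq_expand hH r, Finset.sum_div]
  refine Finset.sum_le_sum fun j hj => ?_
  have h1 := lam_anti hH (Nat.zero_le j) (Finset.mem_range.1 hj)
  apply div_le_div_of_nonneg_left (by positivity) (by linarith) (by linarith)

/-- The diagonal entry of the resolvent. -/
theorem qr_single (u : ι) : qr H z (Pi.single u 1) =
    ∑ j ∈ Finset.range (Fintype.card ι), ‖xi H j u‖ ^ 2 / (z - lam H j) := by
  refine Finset.sum_congr rfl fun j _ => ?_
  have h : ip (xi H j) (Pi.single u 1) = (starRingEnd ℂ) (xi H j u) := by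
    unfold ip
    rw [Finset.sum_eq_single u]
    · simp
    · intro v _ hv
      simp [hv]
    · intro h
      exact absurd (Finset.mem_univ u) h
  rw [h, RCLike.norm_conj]

/-- The trace of the resolvent. -/
theorem qr_trace (hH : H.IsHermitian) : ∑ u, qr H z (Pi.single u 1) =
    ∑ j ∈ Finset.range (Fintype.card ι), 1 / (z - lam H j) := by
  simp only [qr_single]
  rw [Finset.sum_comm]
  refine Finset.sum_congr rfl fun j hj => ?_
  rw [← Finset.sum_div]
  congr 1
  exact xi_nsq hH (Finset.mem_range.1 hj)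

end res

section minor

variable {M : ℕ} {H : Matrix (Fin M) (Fin M) ℂ} {z : ℝ}

theorem zr_herm (hH : H.IsHermitian) (W : Finset (Fin M)) : (zr W H).IsHermitian := by
  ext u v
  rw [Matrix.conjTranspose_apply]
  unfold zr
  by_cases h : u ∈ W ∨ v ∈ W
  · rw [if_pos h.symm, if_pos h, star_zero]
  · rw [if_neg (fun h1 => h h1.symm), if_neg h]
    exact hH.apply u v

/-- The vector with the entries in `W` replaced by zeros. -/
def zv (W : Finset (Fin M)) (y : Fin M → ℂ) : Fin M → ℂ := fun u => if u ∈ W then 0 else y u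

theorem nsq_zv_le (W : Finset (Fin M)) (y : Fin M → ℂ) : nsq (zv W y) ≤ nsq y := by
  refine Finset.sum_le_sum fun u _ => ?_
  unfold zv
  split_ifs
  · rw [norm_zero, zero_pow two_ne_zero]
    positivity
  · exact le_rfl

theorem ip_zr (W : Finset (Fin M)) (x y : Fin M → ℂ) : ip x ((zr W H).mulVec y) = ip (zv W x) (H.mulVec (zv W y)) := by
  simp only [ip, Matrix.mulVec, dotProduct, Finset.mul_sum]
  refine Finset.sum_congr rfl fun u _ => Finset.sum_congr rfl fun v _ => ?_
  unfold zr zv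
  by_cases hu : u ∈ W
  · simp [hu]
  · by_cases hv : v ∈ W
    · simp [hv]
    · simp [hu, hv]

/-- The largest eigenvalue of a matrix with some rows and columns zeroed. -/
theorem lam_zr_le30 (hH : H.IsHermitian) (W : Finset (Fin M)) {t : ℝ} (ht : lam H 0 ≤ t) (h0 : 0 ≤ t) :
    lam (zr W H) 0 ≤ t := by
  rcases Nat.eq_zero_or_pos M with hM | hM
  · unfold lam
    rw [dif_neg (by simp [hM])]
    exact h0
  · refine lam_le_of (zr_herm hH W) (by simpa using hM) fun y => ?_
    rw [ip_zr]
    refine (rayleigh hH _).trans ?_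
    exact mul_le_mul ht (nsq_zv_le W y) (nsq_nonneg _) h0

/-- The part of the `u`-th column in the rows in `S`. -/
def colv (S : Finset (Fin M)) (u : Fin M) (H : Matrix (Fin M) (Fin M) ℂ) : Fin M → ℂ := fun v => if v ∈ S then H v u else 0

/-- **The step from a minor to the next one**: for `u ∈ S` and the minor `S \ {u}`, for every real `c`. -/
theorem qr_step (hH : H.IsHermitian) (hz0 : 0 < z) {S : Finset (Fin M)} {u : Fin M} (hu : u ∈ S)
    (h1 : lam (zr Sᶜ H) 0 < z) (h2 : lam (zr (S.erase u)ᶜ H) 0 < z) (c : ℝ) :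
    2 * c - c ^ 2 * (z - (H u u).re - qr (zr (S.erase u)ᶜ H) z (colv (S.erase u) u H)) ≤
      qr (zr Sᶜ H) z (Pi.single u 1) := by
  set T := S.erase u with hT
  set r := colv T u H with hr
  set y := rsv (zr Tᶜ H) z r with hy
  have huT : u ∉ T := by simp [hT]
  have hsup : ∀ v, v ∉ T → y v = 0 := by
    intro v hv
    have h3 := congrFun (rsv_eq (zr_herm hH Tᶜ) h2 r) v
    rw [← hy, Pi.sub_apply, Pi.smul_apply, smul_eq_mul] at h3
    have h4 : (zr Tᶜ H).mulVec y v = 0 := by
      unfold Matrix.mulVec dotProduct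
      refine Finset.sum_eq_zero fun w _ => ?_
      show (if v ∈ Tᶜ ∨ w ∈ Tᶜ then (0 : ℂ) else H v w) * y w = 0
      rw [if_pos (Or.inl (Finset.mem_compl.2 hv)), zero_mul]
    have h5 : r v = 0 := by
      rw [hr]
      unfold colv
      rw [if_neg hv]
    rw [h4, h5, sub_zero] at h3
    rcases mul_eq_zero.1 h3 with h6 | h6
    · exact absurd (by exact_mod_cast h6) hz0.ne'
    · exact h6
  have hq := qr_eq (zr_herm hH Tᶜ) h2 r
  rw [← hy] at hq
  have hzT : zv Tᶜ y = y := by
    funext v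
    unfold zv
    by_cases hv : v ∈ T
    · rw [if_neg (by simpa using hv)]
    · rw [if_pos (by simpa using hv), hsup v hv]
  rw [ip_zr, hzT] at hq
  -- the test vector
  have h3 := qr_ge (zr_herm hH Sᶜ) h1 (Pi.single u 1) ((c : ℂ) • (Pi.single u 1 + y))
  have e1 : ∀ x : Fin M → ℂ, ip (Pi.single u 1) x = x u := by
    intro x
    unfold ip
    rw [Finset.sum_eq_single u]
    · simp
    · intro v _ hv
      simp [hv]
    · intro h
      exact absurd (Finset.mem_univ u) h
  have e2 : zv Sᶜ (Pi.single u 1 + y) = Pi.single u 1 + y := by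
    funext v
    unfold zv
    by_cases hv : v ∈ S
    · rw [if_neg (by simpa using hv)]
    · rw [if_pos (by simpa using hv), Pi.add_apply, Pi.single_apply, if_neg (fun h : v = u => hv (by rw [h]; exact hu)),
        hsup v (fun h => hv (Finset.mem_of_mem_erase h)), add_zero]
  have e3 : zv Sᶜ ((c : ℂ) • (Pi.single u 1 + y)) = (c : ℂ) • (Pi.single u 1 + y) := by
    conv_rhs => rw [← e2]
    funext v
    unfold zv
    simp only [Pi.smul_apply, smul_eq_mul]
    split_ifs
    · rw [mul_zero]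
    · rfl
  have hyu : y u = 0 := hsup u huT
  have e4 : ip (Pi.single u 1) (H.mulVec y) = ip r y := by
    rw [e1]
    unfold Matrix.mulVec dotProduct ip
    refine Finset.sum_congr rfl fun v _ => ?_
    rw [hr]
    unfold colv
    by_cases hv : v ∈ T
    · rw [if_pos hv]
      congr 1
      exact (hH.apply u v).symm
    · rw [if_neg hv, hsup v hv, mul_zero, mul_zero]
  have hry : ip r y = (qr (zr Tᶜ H) z r : ℂ) := ip_rsv_self r
  have e5 : (ip y (H.mulVec (Pi.single u 1))).re = qr (zr Tᶜ H) z r := by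
    rw [ip_herm hH, ip_re_comm, e4, hry, Complex.ofReal_re]
  have e6 : (ip (Pi.single u 1) (H.mulVec (Pi.single u 1))).re = (H u u).re := by
    rw [e1]
    congr 1
    unfold Matrix.mulVec dotProduct
    rw [Finset.sum_eq_single u]
    · simp
    · intro v _ hv
      simp [hv]
    · intro h
      exact absurd (Finset.mem_univ u) h
  have e7 : nsq (Pi.single u 1 + y) = 1 + nsq y := by
    rw [nsq_add, e1, hyu, Complex.zero_re, mul_zero, add_zero]
    congr 1
    rw [nsq_eq_re, e1, Pi.single_eq_same, Complex.one_re]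
  rw [ip_zr, e3, ip_smul_right, e1, Pi.add_apply, Pi.single_eq_same, hyu, nsq_smul, e7, Matrix.mulVec_smul, ip_smul_left,
    ip_smul_right, Matrix.mulVec_add, ip_add_left, ip_add_right, ip_add_right] at h3
  have e8 : ((starRingEnd ℂ) (c : ℂ) * ((c : ℂ) * (ip (Pi.single u 1) (H.mulVec (Pi.single u 1)) + ip (Pi.single u 1) (H.mulVec y) +
      (ip y (H.mulVec (Pi.single u 1)) + ip y (H.mulVec y))))).re =
      c ^ 2 * ((H u u).re + 2 * qr (zr Tᶜ H) z r + (ip y (H.mulVec y)).re) := by
    rw [Complex.conj_ofReal, ← mul_assoc, ← Complex.ofReal_mul, Complex.re_ofReal_mul, Complex.add_re, Complex.add_re,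
      Complex.add_re, e5, e6, e4, hry, Complex.ofReal_re]
    ring
  rw [e8] at h3
  have e9 : ‖(c : ℂ)‖ ^ 2 = c ^ 2 := by
    rw [Complex.norm_real, Real.norm_eq_abs, sq_abs]
  rw [e9, add_zero, mul_one, Complex.ofReal_re] at h3
  have e10 : z * (c ^ 2 * (1 + nsq y)) - c ^ 2 * ((H u u).re + 2 * qr (zr Tᶜ H) z r + (ip y (H.mulVec y)).re) =
      c ^ 2 * (z - (H u u).re - qr (zr Tᶜ H) z r) := by
    have : z * nsq y = qr (zr Tᶜ H) z r + (ip y (H.mulVec y)).re := by linarith
    linear_combination c ^ 2 * this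
  linarith

end minor

end ACpFrege
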