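import Pool.Agent.H88.AF.OmF
import Pool.Agent.H30.AF.Res

/-!
helper30 (project MP_28250c_AF, C4): orthogonality of the entries of a row of `HH`, given the other rows; the average of the
resolvent form of a column.
-/

set_option autoImplicit false

namespace ACpFrege

variable {b M q : ℕ}

/-- The entries `(v,u)` and `(u,v)` of the layer `i` are multiplied by `om s` and its conjugate. -/
def sht (i : Fin b) (v u : Fin M) (s : ZMod (2 * q)) (o : Om b M q) : Om b M q :=
  if v < u then shf i v u s o else shf i u v (-s) o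

theorem lay_sht_self [NeZero q] (i : Fin b) {v u : Fin M} (h : v ≠ u) (s : ZMod (2 * q)) (o : Om b M q) :
    lay (sht i v u s o i) v u = om (2 * q) s * lay (o i) v u := by
  unfold sht lay
  rcases lt_or_gt_of_ne h with h1 | h1
  · rw [if_pos h1, if_pos h1, if_pos h1, shf_self, om_add, mul_comm]
  · rw [if_neg (not_lt.2 h1.le), if_neg (not_lt.2 h1.le), if_neg (not_lt.2 h1.le), if_pos h1, if_pos h1, shf_self, om_add,
      om_neg, map_mul, Complex.conj_conj, mul_comm]

theorem lay_sht_ne [NeZero q] (i j : Fin b) (v u a c : Fin M) (s : ZMod (2 * q)) (o : Om b M q)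
    (h : ¬ (j = i ∧ (a = v ∧ c = u ∨ a = u ∧ c = v))) : lay (sht i v u s o j) a c = lay (o j) a c := by
  have h1 : ∀ a' c' : Fin M, ¬ (j = i ∧ a' = v ∧ c' = u) → ¬ (j = i ∧ a' = u ∧ c' = v) →
      sht i v u s o j a' c' = o j a' c' := by
    intro a' c' h2 h3
    unfold sht
    split_ifs
    · exact shf_ne i v u s o j a' c' h2
    · exact shf_ne i u v (-s) o j a' c' h3
  unfold lay
  rw [h1 a c (fun h2 => h ⟨h2.1, Or.inl h2.2⟩) (fun h2 => h ⟨h2.1, Or.inr h2.2⟩),
    h1 c a (fun h2 => h ⟨h2.1, Or.inr ⟨h2.2.2, h2.2.1⟩⟩) (fun h2 => h ⟨h2.1, Or.inl ⟨h2.2.2, h2.2.1⟩⟩)]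
  rcases eq_or_ne a c with rfl | hac
  · rw [if_neg (lt_irrefl _), if_neg (lt_irrefl _), if_neg (lt_irrefl _), if_neg (lt_irrefl _),
      h1 a a (fun h2 => h ⟨h2.1, Or.inl h2.2⟩) (fun h2 => h ⟨h2.1, Or.inr h2.2⟩)]
  · rcases lt_or_gt_of_ne hac with h4 | h4
    · rw [if_pos h4, if_pos h4]
    · rw [if_neg (not_lt.2 h4.le), if_pos h4, if_neg (not_lt.2 h4.le), if_pos h4]

/-- Sums are invariant under `sht`. -/
theorem sum_sht [NeZero q] (i : Fin b) (v u : Fin M) (s : ZMod (2 * q)) (F : Om b M q → ℂ) :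
    ∑ o, F (sht i v u s o) = ∑ o, F o := by
  unfold sht
  split_ifs
  · exact (shfE i v u s).sum_comp F
  · exact (shfE i u v (-s)).sum_comp F

theorem lay_nrm30 [NeZero q] (o : Fin M → Fin M → ZMod (2 * q)) (v u : Fin M) : ‖lay o v u‖ = 1 := by
  unfold lay
  split_ifs
  · exact om_norm _
  · rw [RCLike.norm_conj]
    exact om_norm _
  · exact sgn_norm _

theorem om_one_ne30 [NeZero q] (hq : 1 ≤ q) : om (2 * q) 1 ≠ 1 := by
  have h := om_one_pow_ne (n := 2 * q) (k := 1) one_pos (by omega)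
  rwa [pow_one] at h

/-- A function is invariant under the shifts in the row and column `u`. -/
def Inv {α : Type} (u : Fin M) (g : Om b M q → α) : Prop :=
  ∀ (i : Fin b) (v : Fin M) (s : ZMod (2 * q)) (o : Om b M q), v ≠ u → g (sht i v u s o) = g o

/-- Orthogonality in one pair of layers. -/
theorem orth_lay [NeZero q] (hq : 1 ≤ q) {u v w : Fin M} (hv : v ≠ u) (hw : w ≠ u) {g : Om b M q → ℂ} (hg : Inv u g)
    (i j : Fin b) : ∑ o, g o * (lay (o i) v u * (starRingEnd ℂ) (lay (o j) w u)) =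
      if i = j ∧ v = w then ∑ o, g o else 0 := by
  by_cases h : i = j ∧ v = w
  · rw [if_pos h]
    obtain ⟨rfl, rfl⟩ := h
    refine Finset.sum_congr rfl fun o _ => ?_
    rw [Complex.mul_conj', lay_nrm30]
    norm_num
  · rw [if_neg h]
    have h1 : ∑ o, g o * (lay (o i) v u * (starRingEnd ℂ) (lay (o j) w u)) =
        om (2 * q) 1 * ∑ o, g o * (lay (o i) v u * (starRingEnd ℂ) (lay (o j) w u)) := by
      refine (sum_sht i v u 1 _).symm.trans ?_
      rw [Finset.mul_sum]
      refine Finset.sum_congr rfl fun o _ => ?_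
      rw [hg i v 1 o hv, lay_sht_self i hv, lay_sht_ne i j v u w u 1 o (fun h2 => h ⟨h2.1.symm, ?_⟩)]
      · ring
      · rcases h2.2 with h3 | h3
        · exact h3.1.symm
        · exact absurd h3.1 hw
    have h2 : (1 - om (2 * q) 1) * ∑ o, g o * (lay (o i) v u * (starRingEnd ℂ) (lay (o j) w u)) = 0 := by
      rw [sub_mul, one_mul, ← h1, sub_self]
    rcases mul_eq_zero.1 h2 with h3 | h3
    · exact absurd (sub_eq_zero.1 h3).symm (om_one_ne30 hq)
    · exact h3

/-- Orthogonality of the entries of a column. -/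
theorem orth [NeZero q] (hq : 1 ≤ q) (hb : 0 < b) {u v w : Fin M} (hv : v ≠ u) (hw : w ≠ u) {g : Om b M q → ℂ}
    (hg : Inv u g) : ∑ o, g o * (HH o v u * (starRingEnd ℂ) (HH o w u)) = if v = w then ∑ o, g o else 0 := by
  have hb' : (0 : ℝ) < b := by exact_mod_cast hb
  have h1 : ∀ o : Om b M q, g o * (HH o v u * (starRingEnd ℂ) (HH o w u)) =
      ((b : ℂ))⁻¹ * ∑ i, ∑ j, g o * (lay (o i) v u * (starRingEnd ℂ) (lay (o j) w u)) := by
    intro o
    have h2 : ((Real.sqrt b : ℂ))⁻¹ * ((Real.sqrt b : ℂ))⁻¹ = ((b : ℂ))⁻¹ := by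
      rw [← mul_inv, ← Complex.ofReal_mul, Real.mul_self_sqrt hb'.le, Complex.ofReal_natCast]
    unfold HH
    rw [map_mul, map_inv₀, Complex.conj_ofReal, map_sum, ← h2]
    have h3 : ∑ i, ∑ j, g o * (lay (o i) v u * (starRingEnd ℂ) (lay (o j) w u)) =
        g o * ((∑ i, lay (o i) v u) * ∑ j, (starRingEnd ℂ) (lay (o j) w u)) := by
      rw [Finset.sum_mul_sum, Finset.mul_sum]
      refine Finset.sum_congr rfl fun i _ => ?_
      rw [Finset.mul_sum]
    rw [h3]
    ring
  simp_rw [h1]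
  rw [← Finset.mul_sum, Finset.sum_comm]
  have h4 : ∀ i : Fin b, ∑ o : Om b M q, ∑ j, g o * (lay (o i) v u * (starRingEnd ℂ) (lay (o j) w u)) =
      if v = w then ∑ o, g o else 0 := by
    intro i
    rw [Finset.sum_comm]
    simp_rw [orth_lay hq hv hw hg]
    rw [Finset.sum_eq_single i]
    · simp
    · intro j _ hj
      rw [if_neg (fun h => hj h.1.symm)]
    · intro h
      exact absurd (Finset.mem_univ i) h
  simp_rw [h4]
  rw [Finset.sum_const, Finset.card_univ, Fintype.card_fin, nsmul_eq_mul, ← mul_assoc, inv_mul_cancel₀, one_mul]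
  exact_mod_cast hb.ne'

/-- The average of the square of a linear form in a column. -/
theorem av_form [NeZero q] (hq : 1 ≤ q) (hb : 0 < b) {u : Fin M} {S : Finset (Fin M)} (hu : u ∉ S)
    {g : Om b M q → ℝ} (hg : Inv u g) {x : Om b M q → Fin M → ℂ} (hx : Inv u x) :
    av (fun o => g o * ‖ip (x o) (colv S u (HH o))‖ ^ 2) = av (fun o => g o * ∑ v ∈ S, ‖x o v‖ ^ 2) := by
  unfold av
  congr 1
  have h0 : ((∑ o : Om b M q, g o * ‖ip (x o) (colv S u (HH o))‖ ^ 2 : ℝ) : ℂ) =
      ((∑ o : Om b M q, g o * ∑ v ∈ S, ‖x o v‖ ^ 2 : ℝ) : ℂ) := by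
    push_cast
    have h1 : ∀ o : Om b M q, (g o : ℂ) * ((‖ip (x o) (colv S u (HH o))‖ : ℂ)) ^ 2 =
        ∑ v ∈ S, ∑ w ∈ S, ((g o : ℂ) * ((starRingEnd ℂ) (x o v) * x o w)) * (HH o v u * (starRingEnd ℂ) (HH o w u)) := by
      intro o
      have h2 : ip (x o) (colv S u (HH o)) = ∑ v ∈ S, (starRingEnd ℂ) (x o v) * HH o v u := by
        unfold ip colv
        rw [← Finset.sum_filter_add_sum_filter_not Finset.univ (fun v => v ∈ S)]
        have h3 : ∑ v ∈ Finset.univ.filter (fun v => ¬ v ∈ S),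
            (starRingEnd ℂ) (x o v) * (if v ∈ S then HH o v u else 0) = 0 := by
          refine Finset.sum_eq_zero fun v hv => ?_
          rw [if_neg (Finset.mem_filter.1 hv).2, mul_zero]
        rw [h3, add_zero]
        refine Finset.sum_congr (by ext v; simp) fun v hv => ?_
        rw [if_pos hv]
      rw [← Complex.mul_conj', h2, map_sum, Finset.sum_mul_sum, Finset.mul_sum]
      refine Finset.sum_congr rfl fun v _ => ?_
      rw [Finset.mul_sum]
      refine Finset.sum_congr rfl fun w _ => ?_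
      rw [map_mul, Complex.conj_conj]
      ring
    simp_rw [h1]
    rw [Finset.sum_comm]
    have h4 : ∀ v ∈ S, ∑ o : Om b M q, ∑ w ∈ S,
        ((g o : ℂ) * ((starRingEnd ℂ) (x o v) * x o w)) * (HH o v u * (starRingEnd ℂ) (HH o w u)) =
        ∑ o : Om b M q, (g o : ℂ) * ((‖x o v‖ : ℂ)) ^ 2 := by
      intro v hv
      rw [Finset.sum_comm]
      have h5 : ∀ w ∈ S, ∑ o : Om b M q,
          ((g o : ℂ) * ((starRingEnd ℂ) (x o v) * x o w)) * (HH o v u * (starRingEnd ℂ) (HH o w u)) =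
          if v = w then ∑ o : Om b M q, (g o : ℂ) * ((starRingEnd ℂ) (x o v) * x o w) else 0 := by
        intro w hw
        refine orth hq hb (fun h => hu (by rw [← h]; exact hv)) (fun h => hu (by rw [← h]; exact hw)) (g := fun o => (g o : ℂ) *
          ((starRingEnd ℂ) (x o v) * x o w)) ?_
        intro i v' s o hv'
        simp only [hg i v' s o hv', hx i v' s o hv']
      rw [Finset.sum_congr rfl h5, Finset.sum_ite_eq, if_pos hv]
      refine Finset.sum_congr rfl fun o _ => ?_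
      rw [Complex.conj_mul']
    rw [Finset.sum_congr rfl h4, Finset.sum_comm]
    refine Finset.sum_congr rfl fun o _ => ?_
    rw [Finset.mul_sum]
  exact_mod_cast h0

/-- The minor without `u` does not depend on the coordinates of row and column `u`. -/
theorem inv_zr [NeZero q] {u : Fin M} {S : Finset (Fin M)} (hu : u ∉ S) : Inv u (fun o : Om b M q => zr Sᶜ (HH o)) := by
  intro i v s o hv
  funext a c
  show (if a ∈ Sᶜ ∨ c ∈ Sᶜ then 0 else HH (sht i v u s o) a c) = if a ∈ Sᶜ ∨ c ∈ Sᶜ then 0 else HH o a c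
  by_cases h : a ∈ Sᶜ ∨ c ∈ Sᶜ
  · rw [if_pos h, if_pos h]
  · rw [if_neg h, if_neg h]
    rw [not_or, Finset.mem_compl, Finset.mem_compl, not_not, not_not] at h
    unfold HH
    congr 1
    refine Finset.sum_congr rfl fun j _ => ?_
    refine lay_sht_ne i j v u a c s o ?_
    rintro ⟨_, ⟨_, h2⟩ | ⟨h2, _⟩⟩
    · exact hu (by rw [← h2]; exact h.2)
    · exact hu (by rw [← h2]; exact h.1)

/-- **The average of the resolvent form of a column** is the average of the partial trace of the resolvent. -/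
theorem av_qr [NeZero q] (hq : 1 ≤ q) (hb : 0 < b) {u : Fin M} {S : Finset (Fin M)} (hu : u ∉ S) (z : ℝ)
    {g : Om b M q → ℝ} (hg : Inv u g) :
    av (fun o => g o * qr (zr Sᶜ (HH o)) z (colv S u (HH o))) =
      av (fun o => g o * ∑ v ∈ S, qr (zr Sᶜ (HH o)) z (Pi.single v 1)) := by
  have h1 : ∀ o : Om b M q, g o * qr (zr Sᶜ (HH o)) z (colv S u (HH o)) =
      ∑ j ∈ Finset.range (Fintype.card (Fin M)), (g o / (z - lam (zr Sᶜ (HH o)) j)) *
        ‖ip (xi (zr Sᶜ (HH o)) j) (colv S u (HH o))‖ ^ 2 := by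
    intro o
    unfold qr
    rw [Finset.mul_sum]
    refine Finset.sum_congr rfl fun j _ => by ring
  have h2 : ∀ o : Om b M q, g o * ∑ v ∈ S, qr (zr Sᶜ (HH o)) z (Pi.single v 1) =
      ∑ j ∈ Finset.range (Fintype.card (Fin M)), (g o / (z - lam (zr Sᶜ (HH o)) j)) *
        ∑ v ∈ S, ‖xi (zr Sᶜ (HH o)) j v‖ ^ 2 := by
    intro o
    simp_rw [qr_single]
    rw [Finset.sum_comm, Finset.mul_sum]
    refine Finset.sum_congr rfl fun j _ => ?_
    rw [← Finset.sum_div]
    ring
  rw [av_congr h1, av_congr h2, av_sum, av_sum]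
  refine Finset.sum_congr rfl fun j _ => ?_
  have hz := inv_zr (b := b) (q := q) hu
  refine av_form hq hb hu (g := fun o => g o / (z - lam (zr Sᶜ (HH o)) j)) (x := fun o => xi (zr Sᶜ (HH o)) j) ?_ ?_
  · intro i v s o hv
    have h3 := hz i v s o hv
    simp only at h3
    simp only [h3, hg i v s o hv]
  · intro i v s o hv
    have h3 := hz i v s o hv
    simp only at h3
    simp only [h3]

end ACpFrege
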